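import Pool.Agent.Helper40.Frob.Semis

/-!
# Jordan blocks of Frobenius on the second cohomology of a surface

`TwistedH2 p ℓ V` lists properties of the Frobenius endomorphism `F` of
`V = H²(X̄, ℚ_ℓ(1))` of a smooth projective surface over a finite field of characteristic `p`.
-/

open Polynomial Module

namespace Pool.Agent.Helper40.Old.JordanBlocks

open Pool.Agent.Helper40.Frob

/-- Properties of Frobenius on `V = H²(X̄, ℚ_ℓ(1))`. -/
structure TwistedH2 (p ℓ : ℕ) [Fact ℓ.Prime] (V : Type) [AddCommGroup V] [Module ℚ_[ℓ] V]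
    [FiniteDimensional ℚ_[ℓ] V] where
  /-- the cup product pairing -/
  B : LinearMap.BilinForm ℚ_[ℓ] V
  nondeg : B.Nondegenerate
  symm : ∀ x y, B x y = B y x
  /-- the Frobenius -/
  F : End ℚ_[ℓ] V
  isometry : ∀ x y, B (F x) (F y) = B x y
  /-- the characteristic polynomial has rational coefficients -/
  P : ℚ[X]
  charpoly : P.map (algebraMap ℚ ℚ_[ℓ]) = F.charpoly
  /-- the Weil conjectures -/
  weil : ∀ z : ℂ, aeval z P = 0 → ‖z‖ = 1
  /-- an integral multiple by a power of `p` -/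
  D : ℕ
  P0 : ℤ[X]
  integral : P0.map (Int.castRingHom ℚ) = C ((p : ℚ) ^ D) * P

/-- `b` is at least the exponent `D`, or at least the number of eigenvalues of negative
`p`-adic valuation -/
def TwistedH2.Bound {p ℓ : ℕ} [Fact ℓ.Prime] {V : Type} [AddCommGroup V] [Module ℚ_[ℓ] V]
    [FiniteDimensional ℚ_[ℓ] V] (H : TwistedH2 p ℓ V) (b : ℕ) : Prop :=
  H.D ≤ b ∨ ∃ j, H.P.natDegree ≤ j + b ∧ ¬ (p : ℤ) ∣ H.P0.coeff j

theorem result (p ℓ : ℕ) [Fact p.Prime] [Fact ℓ.Prime] {V : Type} [AddCommGroup V]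
    [Module ℚ_[ℓ] V] [FiniteDimensional ℚ_[ℓ] V] (H : TwistedH2 p ℓ V) :
    -- Jordan blocks at eigenvalues that are not roots of unity have size at most `b`
    (∀ b : ℕ, H.Bound b → ∀ Q : ℚ[X], Irreducible Q →
      (∀ z : ℂ, aeval z Q = 0 → ∀ n : ℕ, 0 < n → z ^ n ≠ 1) → ∀ (n : ℕ) (x : V),
      ((aeval H.F (Q.map (algebraMap ℚ ℚ_[ℓ]))) ^ n) x = 0 →
      ((aeval H.F (Q.map (algebraMap ℚ ℚ_[ℓ]))) ^ b) x = 0) ∧
    -- Jordan blocks at roots of unity
    (∀ m : ℕ, 0 < m → ∀ N : Submodule ℚ_[ℓ] V, (∀ x ∈ N, (H.F ^ m) x = x) →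
      (H.B.restrict N).Nondegenerate → ∀ x : V, (∃ k : ℕ, ((H.F ^ m - 1) ^ k) x = 0) →
      ((H.F ^ m - 1) ^ (2 * ((finrank ℚ_[ℓ] ((H.F ^ m).maxGenEigenspace 1) -
        finrank ℚ_[ℓ] N - 1) / 2) + 1)) x = 0) ∧
    -- semisimplicity
    (H.Bound 1 → ∀ (N : Submodule ℚ_[ℓ] V) (M : ℕ), 0 < M → (∀ x ∈ N, (H.F ^ M) x = x) →
      (H.B.restrict N).Nondegenerate →
      (∀ m : ℕ, 0 < m →
        finrank ℚ_[ℓ] ((H.F ^ m).maxGenEigenspace 1) ≤ finrank ℚ_[ℓ] N + 2) →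
      H.F.IsSemisimple) := by
  have hinj : Function.Injective (algebraMap ℚ ℚ_[ℓ]) := (algebraMap ℚ ℚ_[ℓ]).injective
  have hPm : H.P.Monic := by
    have h1 : (H.P.map (algebraMap ℚ ℚ_[ℓ])).Monic := by
      rw [H.charpoly]
      exact H.F.charpoly_monic
    exact monic_of_injective hinj h1
  have hPF : ev H.F H.P = 0 := by
    unfold ev
    rw [H.charpoly]
    exact H.F.aeval_self_charpoly
  have hmul : ∀ b : ℕ, H.Bound b → ∀ Q : ℚ[X], Irreducible Q → NoUnityRoot Q →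
      ∀ e, Q ^ e ∣ H.P → e ≤ b := by
    intro b hb Q hQ hQ1 e he
    obtain ⟨h1, h2⟩ := mult_le (Fact.out : p.Prime) hPm H.weil H.integral hQ hQ1 he
    rcases hb with hb | hb
    · exact h1.trans hb
    · exact h2 b hb
  have part1 : ∀ b : ℕ, H.Bound b → ∀ Q : ℚ[X], Irreducible Q → NoUnityRoot Q →
      ∀ (n : ℕ) (x : V), (ev H.F Q ^ n) x = 0 → (ev H.F Q ^ b) x = 0 := by
    intro b hb Q hQ hQ1 n x hx
    exact nilp_le hPm.ne_zero hPF hQ (hmul b hb Q hQ hQ1) n x hx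
  refine ⟨fun b hb Q hQ hQ1 n x hx => part1 b hb Q hQ hQ1 n x hx, ?_, ?_⟩
  · intro m hm N hN hNn x hx
    have hpow : ∀ k : ℕ, ∀ a b, H.B ((H.F ^ k) a) ((H.F ^ k) b) = H.B a b := by
      intro k
      induction k with
      | zero => intro a b; rfl
      | succ k ih =>
        intro a b
        rw [pow_succ, End.mul_apply, End.mul_apply, ih, H.isometry]
    exact tate_block two_ne_zero H.nondeg H.symm (hpow m) N hN hNn x hx
  · intro hb N M hM hN hNn hdim
    apply semisimple_of hPm.ne_zero hPF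
    intro Q hQ hQP x hx
    by_cases hQ1 : NoUnityRoot Q
    · have := part1 1 hb Q hQ hQ1 2 x (by rw [pow_two, End.mul_apply]; exact hx)
      rwa [pow_one] at this
    · exact tate_part H.nondeg H.symm H.isometry N hM hN hNn hdim hQ hQ1 x hx

end Pool.Agent.Helper40.Old.JordanBlocks
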