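import Pool.Agent.Helper40.LL.Main

/-!
# The local zero-one law: semisimplicity at one eigenvalue in families

The weak form of the question asks for the semisimplicity of Frobenius at the eigenvalue `q` only; it
holds for every surface which satisfies the Tate conjecture.  For a smooth projective family of
surfaces over a connected normal base `S` over `𝔽_q` the fundamental group `P` of `S` acts on
`V = H²(1)` of the geometric generic fibre, semisimply under the geometric fundamental group `A`
(Deligne), and `A` and the Frobenius `x` of a closed point generate an open subgroup.  There is a finite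
Galois covering of `S` (the subgroup `N`) such that for every class `c` of its group: either no fibre
with Frobenius in `c` is semisimple at the eigenvalue `1`, or almost all of them are, and then the
dimension of the space of invariants of every fibre in the class is at least the least multiplicity of
`1` in the class; in particular all fibres in the class with the least pole order
`- ord_{s = 1} ζ` are semisimple at `1`.  Nothing is assumed about the other eigenvalues.
-/

set_option autoImplicit false

namespace Pool.Agent.Helper40.Old.LocalLaw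

open Polynomial

/-- Every subspace stable under the endomorphisms in `S` has a complement stable under them. -/
def ActsSemisimply {K V : Type*} [Field K] [AddCommGroup V] [Module K V]
    (S : Set (Module.End K V)) : Prop :=
  ∀ W : Submodule K V, (∀ A ∈ S, ∀ v ∈ W, A v ∈ W) →
    ∃ W' : Submodule K V, (∀ A ∈ S, ∀ v ∈ W', A v ∈ W') ∧ IsCompl W W'

/-- The closed subgroup generated by `A` and `x` is open. -/
def GenerateOpen {P : Type*} [Group P] [TopologicalSpace P] [IsTopologicalGroup P]
    (A : Subgroup P) (x : P) : Prop :=
  IsOpen ((A ⊔ Subgroup.zpowers x).topologicalClosure : Set P)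

/-- Semisimplicity at `l`: the generalized eigenspace is equal to the eigenspace. -/
def SemisimpleAt {K V : Type*} [Field K] [AddCommGroup V] [Module K V] (T : Module.End K V)
    (l : K) : Prop :=
  T.maxGenEigenspace l = T.eigenspace l

theorem ssat_of_semisimpleAt {K V : Type*} [Field K] [AddCommGroup V] [Module K V]
    {T : Module.End K V} {l : K} (h : SemisimpleAt T l) : Pool.Agent.Helper40.ZO.SSAt T l := by
  intro v hv
  have h1 : v ∈ T.maxGenEigenspace l := by
    rw [Module.End.mem_maxGenEigenspace]
    exact ⟨2, hv⟩
  rw [h, Module.End.mem_eigenspace_iff] at h1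
  rw [LinearMap.sub_apply, Module.algebraMap_end_apply, h1, sub_self]

theorem semisimpleAt_of_ssat {K V : Type*} [Field K] [AddCommGroup V] [Module K V]
    {T : Module.End K V} {l : K} (h : Pool.Agent.Helper40.ZO.SSAt T l) : SemisimpleAt T l := by
  refine le_antisymm ?_ ((Module.End.genEigenspace T l).monotone le_top)
  have key : ∀ k : ℕ, ∀ v, ((T - algebraMap K (Module.End K V) l) ^ (k + 1)) v = 0 →
      (T - algebraMap K (Module.End K V) l) v = 0 := by
    intro k
    induction k with
    | zero =>
      intro v hv
      rwa [zero_add, pow_one] at hv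
    | succ k ih =>
      intro v hv
      rw [pow_succ, Module.End.mul_apply] at hv
      refine h v ?_
      rw [pow_two, Module.End.mul_apply]
      exact ih _ hv
  intro v hv
  rw [Module.End.mem_maxGenEigenspace] at hv
  obtain ⟨k, hk⟩ := hv
  have h1 : ((T - algebraMap K (Module.End K V) l) ^ (k + 1)) v = 0 := by
    rw [pow_succ', Module.End.mul_apply]
    have h2 : ((T - algebraMap K (Module.End K V) l) ^ k) v = 0 := hk
    rw [h2, map_zero]
  have h2 := key k v h1
  rw [LinearMap.sub_apply, Module.algebraMap_end_apply, sub_eq_zero] at h2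
  exact Module.End.mem_eigenspace_iff.2 h2

variable {K V P : Type*} [Field K] [IsAlgClosed K] [CharZero K] [TopologicalSpace K]
  [IsTopologicalRing K] [T2Space K] [AddCommGroup V] [Module K V] [FiniteDimensional K V]
  [Group P] [TopologicalSpace P] [IsTopologicalGroup P] [CompactSpace P]
  [TotallyDisconnectedSpace P]

/-- **The local zero-one law.**  `rho` is a continuous representation of the profinite group `P`. -/
theorem result (rho : P →* Module.End K V)
    (cont : ∀ (v : V) (f : Module.Dual K V), Continuous fun x => f (rho x v)) :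
    ∃ N : Subgroup P, N.Normal ∧ IsOpen (N : Set P) ∧
      ∀ A : Subgroup P, A.Normal → ActsSemisimply (rho '' (A : Set P)) →
        ∀ (c : P ⧸ N) (l : K),
          (∀ x : P, (x : P ⧸ N) = c → GenerateOpen A x → ¬ SemisimpleAt (rho x) l) ∨
          ((∀ m : ℕ, (∀ x : P, (x : P ⧸ N) = c → m ≤ (rho x).charpoly.rootMultiplicity l) →
              ∀ x : P, (x : P ⧸ N) = c → m ≤ Module.finrank K ((rho x).eigenspace l)) ∧
            ∀ ε : ℝ, 0 < ε → ∃ M : Subgroup P, M.Normal ∧ IsOpen (M : Set P) ∧
              (Nat.card {d : P ⧸ M // ∃ x : P, (x : P ⧸ M) = d ∧ (x : P ⧸ N) = c ∧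
                ¬ SemisimpleAt (rho x) l} : ℝ) ≤ ε * Nat.card (P ⧸ M)) := by
  obtain ⟨N, hNn, hNo, hN⟩ := Pool.Agent.Helper40.LL.local_one rho cont
  refine ⟨N, hNn, hNo, ?_⟩
  intro A hAn hA c l
  by_cases h : ∃ x : P, (x : P ⧸ N) = c ∧ GenerateOpen A x ∧ SemisimpleAt (rho x) l
  · right
    obtain ⟨x, hx, hopen, hss⟩ := h
    obtain ⟨h1, h2⟩ := hN A hAn hA x l hopen (ssat_of_semisimpleAt hss)
    have hclass : ∀ y : P, (y : P ⧸ N) = c ↔ y * x⁻¹ ∈ N := by
      intro y
      rw [← hx, eq_comm, QuotientGroup.eq]
      constructor
      · intro h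
        have h3 := hNn.conj_mem _ h x
        simpa [mul_assoc] using h3
      · intro h
        have h3 := hNn.conj_mem _ h x⁻¹
        simpa [mul_assoc] using h3
    refine ⟨?_, ?_⟩
    · intro m hm y hy
      have h3 := h1 m (fun g hg => hm (g * x) ((hclass _).2 (by simpa using hg))) (y * x⁻¹)
        ((hclass y).1 hy)
      rwa [inv_mul_cancel_right] at h3
    · intro ε hε
      obtain ⟨M, hM1, hM2, hM3⟩ := h2 ε hε
      refine ⟨M, hM1, hM2, ?_⟩
      have h4 : Nat.card {d : P ⧸ M // ∃ x : P, (x : P ⧸ M) = d ∧ (x : P ⧸ N) = c ∧
          ¬ SemisimpleAt (rho x) l} = Set.ncard {d : P ⧸ M | ∃ x : P, (x : P ⧸ M) = d ∧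
            (x : P ⧸ N) = c ∧ ¬ SemisimpleAt (rho x) l} := Nat.card_coe_set_eq _
      rw [h4]
      refine le_trans (Nat.cast_le.2 (Set.ncard_le_ncard ?_ ?_)) hM3
      · rintro d ⟨y, hyd, hyc, hns⟩
        refine ⟨y * x⁻¹, (hclass y).1 hyc, ?_, ?_⟩
        · rw [inv_mul_cancel_right]
          exact hyd
        · rw [inv_mul_cancel_right]
          exact fun h => hns (semisimpleAt_of_ssat h)
      · haveI : Finite (P ⧸ M) := Subgroup.quotient_finite_of_isOpen M hM2
        exact Set.toFinite _
  · left
    intro x hx hopen hss
    exact h ⟨x, hx, hopen, hss⟩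

end Pool.Agent.Helper40.Old.LocalLaw
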